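import Pool.Agent.Helper46.NU.Goals1

namespace NU.PkLC

open NU

theorem lc : G_LC := by
  classical
  intro S φ c
  induction c using S.wf.induction with
  | _ c ih =>
    intro n
    by_cases hg : S.gen c
    · obtain ⟨F₀, hF₀⟩ := (φ (c, n)).2
      have hch : ∀ p : S.C × ℕ, ∃ F : Finset (S.C × ℕ), S.see c p.1 → ∀ φ' : Ph S, Agr F φ φ' →
          ∀ ω : Om S, zz S φ' ω p.1 p.2 = zz S φ ω p.1 p.2 := by
        intro p
        by_cases hs : S.see c p.1
        · obtain ⟨F, hF⟩ := ih p.1 hs p.2
          exact ⟨F, fun _ => hF⟩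
        · exact ⟨∅, fun h => absurd h hs⟩
      choose Fp hFp using hch
      refine ⟨insert (c, n) (F₀.biUnion Fp), ?_⟩
      intro φ' h ω
      have h0 : φ' (c, n) = φ (c, n) := h _ (Finset.mem_insert_self _ _)
      rw [zz_eq, zz_eq, h0]
      have hm : (φ (c, n)).1 (mask S c (zz S φ' ω)) = (φ (c, n)).1 (mask S c (zz S φ ω)) := by
        apply hF₀
        intro p hp
        by_cases hs : S.see c p.1
        · have hfp := hFp p hs φ' (fun x hx => h x (Finset.mem_insert_of_mem
            (Finset.mem_biUnion.mpr ⟨p, hp, hx⟩))) ω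
          simp only [mask]
          rw [if_pos hs, if_pos hs, hfp]
        · simp only [mask]
          rw [if_neg hs, if_neg hs]
      rw [hm]
    · refine ⟨∅, ?_⟩
      intro φ' _ ω
      rw [zz_eq, zz_eq, if_pos (Or.inr hg), if_pos (Or.inr hg)]

end NU.PkLC

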